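import Pool.Agent.H86.IR.Targets2

/-!
# ir_modules, module LAG: Lagrange interpolation
-/

set_option autoImplicit false

namespace Pool.Agent.H54.IR

open Pool.Agent.H86.IR Polynomial

theorem lag : T_LAG := by
  intro m z w hm hz hzz
  classical
  set P : ℂ[X] := ∏ j ∈ Finset.range m, (X - C (w j)) with hP
  set Q : ℂ[X] := ∏ j ∈ Finset.range m, (X - C (z j)) with hQ
  have hPm : P.Monic := monic_prod_X_sub_C _ _
  have hQm : Q.Monic := monic_prod_X_sub_C _ _
  have hPd : P.natDegree = m := by
    rw [hP, natDegree_finset_prod_X_sub_C_eq_card, Finset.card_range]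
  have hQd : Q.natDegree = m := by
    rw [hQ, natDegree_finset_prod_X_sub_C_eq_card, Finset.card_range]
  have hPd' : P.degree = m := by rw [degree_eq_natDegree hPm.ne_zero, hPd]
  have hQd' : Q.degree = m := by rw [degree_eq_natDegree hQm.ne_zero, hQd]
  have hd : (P - Q).degree < (Finset.range m).card := by
    rw [Finset.card_range, ← hPd']
    exact degree_sub_lt (hPd'.trans hQd'.symm) hPm.ne_zero
      (hPm.leadingCoeff.trans hQm.leadingCoeff.symm)
  have hinj : Set.InjOn z (Finset.range m : Set ℕ) := by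
    intro i hi j hj hij
    by_contra hne
    exact hzz i (Finset.mem_range.1 (Finset.mem_coe.1 hi)) j
      (Finset.mem_range.1 (Finset.mem_coe.1 hj)) hne hij
  have hev : ∀ i ∈ Finset.range m, (P - Q).eval (z i) = ∏ j ∈ Finset.range m, (z i - w j) := by
    intro i hi
    have h1 : Q.eval (z i) = 0 := by
      rw [hQ, eval_prod]
      exact Finset.prod_eq_zero hi (by simp)
    rw [eval_sub, h1, sub_zero, hP, eval_prod]
    simp
  have hI := Lagrange.eq_interpolate_of_eval_eq
    (r := fun i => ∏ j ∈ Finset.range m, (z i - w j)) hinj hd hev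
  have h0 := congrArg (eval 0) hI
  have hP0 : P.eval 0 = ∏ j ∈ Finset.range m, (0 - w j) := by
    rw [hP, eval_prod]
    simp
  have hQ0 : Q.eval 0 = ∏ j ∈ Finset.range m, (0 - z j) := by
    rw [hQ, eval_prod]
    simp
  rw [eval_sub, Lagrange.interpolate_apply, eval_finset_sum, hP0, hQ0] at h0
  have hQne : (∏ j ∈ Finset.range m, (0 - z j)) ≠ 0 := by
    rw [Finset.prod_ne_zero_iff]
    intro j hj
    rw [zero_sub]
    exact neg_ne_zero.2 (hz j (Finset.mem_range.1 hj))
  have hterm : ∀ i ∈ Finset.range m,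
      (eval 0 (C (∏ j ∈ Finset.range m, (z i - w j)) * Lagrange.basis (Finset.range m) z i)) =
      -((∏ j ∈ Finset.range m, (z i - w j)) /
      (z i * ∏ j ∈ (Finset.range m).erase i, (z i - z j))) * ∏ j ∈ Finset.range m, (0 - z j) := by
    intro i hi
    have hi' := Finset.mem_range.1 hi
    have h1 : eval 0 (Lagrange.basis (Finset.range m) z i) =
        (∏ j ∈ (Finset.range m).erase i, (z i - z j))⁻¹ *
          ∏ j ∈ (Finset.range m).erase i, (0 - z j) := by
      rw [Lagrange.basis, eval_prod, ← Finset.prod_inv_distrib, ← Finset.prod_mul_distrib]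
      refine Finset.prod_congr rfl fun j _ => ?_
      rw [Lagrange.basisDivisor]
      simp
    have h2 : ∏ j ∈ Finset.range m, (0 - z j) =
        (0 - z i) * ∏ j ∈ (Finset.range m).erase i, (0 - z j) :=
      (Finset.mul_prod_erase _ _ hi).symm
    have h3 : (∏ j ∈ (Finset.range m).erase i, (z i - z j)) ≠ 0 := by
      rw [Finset.prod_ne_zero_iff]
      intro j hj
      have hj' := Finset.mem_erase.1 hj
      exact sub_ne_zero.2 (hzz i hi' j (Finset.mem_range.1 hj'.2) (fun h => hj'.1 h.symm))
    rw [eval_mul, eval_C, h1, h2]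
    have h4 := hz i hi'
    field_simp
    ring
  rw [Finset.sum_congr rfl hterm, ← Finset.sum_mul, Finset.sum_neg_distrib] at h0
  have h5 : (∏ j ∈ Finset.range m, w j) / ∏ j ∈ Finset.range m, z j =
      (∏ j ∈ Finset.range m, (0 - w j)) / ∏ j ∈ Finset.range m, (0 - z j) := by
    rw [← Finset.prod_div_distrib, ← Finset.prod_div_distrib]
    refine Finset.prod_congr rfl fun j _ => ?_
    rw [zero_sub, zero_sub, neg_div_neg_eq]
  rw [h5]
  have h6 : (∏ j ∈ Finset.range m, (0 - w j)) / (∏ j ∈ Finset.range m, (0 - z j)) - 1 =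
      -∑ i ∈ Finset.range m, (∏ j ∈ Finset.range m, (z i - w j)) /
      (z i * ∏ j ∈ (Finset.range m).erase i, (z i - z j)) := by
    rw [div_sub_one hQne, h0, mul_div_assoc, div_self hQne, mul_one]
  linear_combination h6

end Pool.Agent.H54.IR
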